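import Pool.Agent.H80.HS.Targets

set_option autoImplicit false

namespace Pool.Agent.H76.HS.G1b

open MeasureTheory Set Pool.Agent.H80.HS
open scoped ContDiff

private lemma contDiff_fR (R : ℝ) : ContDiff ℝ ∞ (fR R) := by
  unfold fR
  refine ContDiff.mul (Real.contDiff_exp.comp (by fun_prop)) ?_
  exact (Real.smoothTransition.contDiff (n := (⊤ : ℕ∞))).comp (by fun_prop : ContDiff ℝ ∞ fun ρ : ℝ => R - ρ)

/-- The truncated Gaussians times a test function in `t` are test functions. -/
theorem g1b : T_G1b := by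
  intro n R g hg hgc
  refine ⟨?_, ?_⟩
  · refine ContDiff.mul ((contDiff_fR R).comp ?_) (hg.comp (by fun_prop))
    exact (contDiff_fst.norm_sq ℝ).add ((contDiff_fst.comp contDiff_snd).norm_sq ℝ)
  · refine HasCompactSupport.intro (K := Metric.closedBall (0 : V n) (Real.sqrt |R|) ×ˢ
      (Metric.closedBall (0 : V n) (Real.sqrt |R|) ×ˢ tsupport g)) ?_ ?_
    · exact (isCompact_closedBall _ _).prod ((isCompact_closedBall _ _).prod hgc)
    · rintro ⟨x, y, t⟩ h
      simp only [mem_prod, Metric.mem_closedBall, dist_zero_right, not_and_or] at h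
      have key : R ≤ ‖x‖ ^ 2 + ‖y‖ ^ 2 → fR R (‖x‖ ^ 2 + ‖y‖ ^ 2) = 0 := by
        intro hR
        unfold fR
        rw [Real.smoothTransition.zero_of_nonpos (by linarith), mul_zero]
      have hs : Real.sqrt |R| ^ 2 = |R| := Real.sq_sqrt (abs_nonneg R)
      have h0 : 0 ≤ Real.sqrt |R| := Real.sqrt_nonneg _
      rcases h with h | h | h
      · have : R ≤ ‖x‖ ^ 2 + ‖y‖ ^ 2 := by
          have := le_abs_self R
          nlinarith [sq_nonneg ‖y‖, not_le.1 h]
        simp only [key this, zero_mul]
      · have : R ≤ ‖x‖ ^ 2 + ‖y‖ ^ 2 := by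
          have := le_abs_self R
          nlinarith [sq_nonneg ‖x‖, not_le.1 h]
        simp only [key this, zero_mul]
      · simp only [image_eq_zero_of_notMem_tsupport h, mul_zero]

end Pool.Agent.H76.HS.G1b
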